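import Pool.Agent.X297.GT.Defs

/-!
# Characters with rational weights: definitions
-/

open CategoryTheory AlgebraicGeometry

universe u v w

namespace Pool.Agent.X297.BF

/-- A subgroup `L` of the group `C` with weights: homomorphisms `wt · σ : L → ℤ` for `σ ∈ S`, such
that `χ` has the weights `D` and the elements of `L` all of whose weights are `0` have finite order.

In the intended use `C` is the group of the characters of the Galois group `Δ` of a finite field with
`q` elements with values in the multiplicative group of `ℚ̄_ℓ`, `L` consists of the continuous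
characters whose value at the geometric Frobenius element is an algebraic number, a unit outside of
`p`, all of whose complex absolute values are the same power of the square root of `q`, and whose
slopes have denominators which divide `D`; `S` is the set of the embeddings of the field of algebraic
numbers into `ℚ̄_p`, and `wt ψ σ` is `D` times the slope of the value of `ψ` at the place `σ`, the
slope of `q` being `1`. If all slopes are `0`, the value is a root of unity by the product formula and
Kronecker's theorem. -/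
structure WeightSystem {C : Type w} [CommGroup C] (χ : C) (S : Type) (D : ℕ) where
  /-- the subgroup -/
  L : Subgroup C
  /-- the weights -/
  wt : C → S → ℤ
  mul : ∀ ψ ∈ L, ∀ θ ∈ L, wt (ψ * θ) = wt ψ + wt θ
  mem : χ ∈ L
  one : ∀ σ, wt χ σ = D
  fin : ∀ ψ ∈ L, (∀ σ, wt ψ σ = 0) → ∃ m, 0 < m ∧ ψ ^ m = 1

variable {K : Type v} [Field K] {A : Type v} [Ring A] [Algebra K A] {Γ : Type w} [Group Γ]

/-- The algebra `A` is generated by elements `v i`, `v' i` of degree one, `i = 1, …, g`, which are
eigenvectors of `Δ` with characters in `L` whose product is `χ` (for the Weil pairing of a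
polarization), and the characters have weights between `0` and `D` (slopes between `0` and `1`). -/
def IsAbelian {χ : Γ →* Kˣ} {Δ : Subgroup Γ} {S : Type} {D : ℕ}
    (H : WeightSystem (χ.comp Δ.subtype) S D) (gr : ℕ → Submodule K A) (ρ : Γ →* (A ≃ₐ[K] A))
    (g : ℕ) : Prop :=
  ∃ v v' : Fin g → A, Algebra.adjoin K (Set.range v ∪ Set.range v') = ⊤ ∧
    ∀ i, v i ∈ gr 1 ∧ v' i ∈ gr 1 ∧ ∃ ψ ψ', GT.IsEigen ρ Δ ψ (v i) ∧ GT.IsEigen ρ Δ ψ' (v' i) ∧
      ψ * ψ' = χ.comp Δ.subtype ∧ ψ ∈ H.L ∧ ∀ σ, 0 ≤ H.wt ψ σ ∧ H.wt ψ σ ≤ D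

open Pool.Agent.H914 Pool.Agent.H914.VarClass Pool.Agent.H914.WeilCohomology
  Pool.Agent.X297.TIL
open Pool.Agent.Y129 (pw)

/-- The polynomials in pull-backs to `Z` of Tate classes of degree `2 j`, `j ∈ J`, on the powers
`X ^ (m + 1)`, `m ∈ N`. -/
noncomputable def tateAlg {k : Type u} [Field k] {𝒱 : VarClass k} {ops : CycleOps 𝒱}
    {W : WeilCohomology.{u, v} ops} {X : 𝒱.Obj} {Γ : Type w} [Group Γ] {χ : Γ →* W.Kˣ}
    (G : GaloisPowers W X Γ χ) (J N : Set ℕ) (Z : 𝒱.Obj) : Subalgebra W.K (W.H Z) :=
  Algebra.adjoin W.K {c | ∃ m ∈ N, ∃ (g : Z ⟶ pw X m), ∃ j ∈ J, ∃ y, G.IsTateClass m j y ∧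
    W.map g y = c}

/-- The bound for the number of factors. -/
def abelianBound (g D : ℕ) : ℕ := 2 * max 2 (g ^ 2 * (g * max D 1) ^ g)

end Pool.Agent.X297.BF
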