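import Pool.Agent.X297.BF.Defs
import Pool.Agent.X297.BT.Paired
import Pool.Agent.X297.GT.Main

/-!
# The Tate conjecture for all powers of an abelian variety over a finite field
-/

open CategoryTheory AlgebraicGeometry

universe u v w

namespace Pool.Agent.X297.BF

open Pool.Agent.H914 Pool.Agent.H914.VarClass Pool.Agent.H914.VarClass.Obj
  Pool.Agent.H914.WeilCohomology Pool.Agent.H281R3.HT Pool.Agent.TH125.Gal Pool.Agent.X297.TIL
  Pool.Agent.X297.GT Pool.Agent.W536.RR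
open Pool.Agent.X297.BT (val prd cnt prd_nil prd_cons Proj prd_mem prd_closed exists_basis sols
  sols_sub bound sols_small_paired)
open Pool.Agent.Y129 (pw pj liftN liftN_pj tateClasses)

namespace WeightSystem

variable {C : Type w} [CommGroup C] {χ : C} {S : Type} {D : ℕ} (H : WeightSystem χ S D)

lemma wt_one : H.wt 1 = 0 := by
  have h := H.mul 1 H.L.one_mem 1 H.L.one_mem
  rw [one_mul] at h
  exact left_eq_add.1 h

lemma wt_pow {ψ : C} (hψ : ψ ∈ H.L) (n : ℕ) : H.wt (ψ ^ n) = n • H.wt ψ := by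
  induction n with
  | zero => rw [pow_zero, wt_one, zero_smul]
  | succ n ih => rw [pow_succ, H.mul _ (H.L.pow_mem hψ n) _ hψ, ih, succ_nsmul]

lemma wt_inv {ψ : C} (hψ : ψ ∈ H.L) : H.wt ψ⁻¹ = - H.wt ψ := by
  have h := H.mul ψ hψ ψ⁻¹ (H.L.inv_mem hψ)
  rw [mul_inv_cancel, wt_one] at h
  exact (neg_eq_of_add_eq_zero_right h.symm).symm

/-- The elements all of whose weights are `D j`. -/
lemma finite_iff {ψ : C} (hψ : ψ ∈ H.L) (j : ℕ) :
    (∃ m, 0 < m ∧ ψ ^ m = (χ ^ j) ^ m) ↔ ∀ σ, H.wt ψ σ = D * j := by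
  constructor
  · rintro ⟨m, hm, h⟩ σ
    have h1 : H.wt (ψ ^ m) σ = H.wt ((χ ^ j) ^ m) σ := by rw [h]
    rw [H.wt_pow hψ, H.wt_pow (H.L.pow_mem H.mem j), H.wt_pow H.mem, Pi.smul_apply, Pi.smul_apply,
      Pi.smul_apply, H.one σ, nsmul_eq_mul, nsmul_eq_mul, nsmul_eq_mul] at h1
    rw [mul_comm (D : ℤ)]
    exact mul_left_cancel₀ (by exact_mod_cast hm.ne') h1
  · intro h
    have h1 : ψ * (χ ^ j)⁻¹ ∈ H.L := H.L.mul_mem hψ (H.L.inv_mem (H.L.pow_mem H.mem j))
    obtain ⟨m, hm, h2⟩ := H.fin _ h1 (by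
      intro σ
      rw [H.mul _ hψ _ (H.L.inv_mem (H.L.pow_mem H.mem j)), Pi.add_apply,
        H.wt_inv (H.L.pow_mem H.mem j), Pi.neg_apply, H.wt_pow H.mem, Pi.smul_apply, H.one σ,
        nsmul_eq_mul, h σ]
      ring)
    refine ⟨m, hm, ?_⟩
    rwa [mul_pow, inv_pow, mul_inv_eq_one] at h2

end WeightSystem

variable {k : Type u} [Field k] {𝒱 : VarClass k} {ops : CycleOps 𝒱}
  {W : WeilCohomology.{u, v} ops} {X : 𝒱.Obj} {Γ : Type w} [Group Γ] {χ : Γ →* W.Kˣ}
  {G : GaloisPowers W X Γ χ} {Δ : Subgroup Γ} {S : Type} {D : ℕ}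
  {H : WeightSystem (χ.comp Δ.subtype) S D} {f c : ℕ}

/-- The generators. -/
structure Gens (G : GaloisPowers W X Γ χ) (Δ : Subgroup Γ)
    (H : WeightSystem (χ.comp Δ.subtype) S D) (f c : ℕ) where
  v : Fin f → W.H X
  dg : Fin f → ℕ
  ps : Fin f → (Δ →* W.Kˣ)
  gen : Algebra.adjoin W.K (Set.range v) = ⊤
  mem : ∀ i, v i ∈ W.gr X (dg i)
  eig : ∀ i, IsEigen (A := W.H X) (G.act 0) Δ (ps i) (v i)
  hodge : ∀ i, ps i ∈ H.L
  bd : ∀ i σ, |2 * H.wt (ps i) σ - D * dg i| ≤ c

namespace Gens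

variable (B : Gens G Δ H f c)

/-- The character of a product. -/
def ch {Z : 𝒱.Obj} (l : List (Fin f × (Z ⟶ X))) : Δ →* W.Kˣ := (l.map fun a => B.ps a.1).prod

lemma ch_mem {Z : 𝒱.Obj} (l : List (Fin f × (Z ⟶ X))) : B.ch l ∈ H.L := by
  apply Subgroup.list_prod_mem
  intro x hx
  obtain ⟨a, -, rfl⟩ := List.mem_map.1 hx
  exact B.hodge _

lemma eig_prd {n : ℕ} {l : List (Fin f × (pw X n ⟶ X))} (hl : Proj l) (g : Δ) :
    G.act n g (prd B.v l) = (B.ch l g : W.K) • prd B.v l := by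
  induction l with
  | nil => simp [prd_nil, ch]
  | cons a l ih =>
    obtain ⟨r, hr⟩ := hl a List.mem_cons_self
    have h1 : G.act n g (val B.v a) = (B.ps a.1 g : W.K) • val B.v a := by
      rw [val, hr]
      exact (G.isAct.proj n r g (B.v a.1)).trans
        ((congrArg (W.map (pj X n r)) (B.eig a.1 g)).trans (map_smul _ _ _))
    have h2 : B.ch (a :: l) = B.ps a.1 * B.ch l := by
      rw [ch, List.map_cons, List.prod_cons, ch]
    rw [prd_cons, map_mul, ih fun b hb => hl b (List.mem_cons_of_mem _ hb), h1, h2,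
      MonoidHom.mul_apply, Units.val_mul, smul_mul_smul_comm]

/-- The degree of a product. -/
def deg {Z : 𝒱.Obj} (l : List (Fin f × (Z ⟶ X))) : ℕ := (l.map fun a => B.dg a.1).sum

lemma cnt_cons {Z : 𝒱.Obj} (a : Fin f × (Z ⟶ X)) (l : List (Fin f × (Z ⟶ X))) (i : Fin f) :
    cnt (a :: l) i = cnt l i + if a.1 = i then 1 else 0 := by
  rw [cnt, List.map_cons, List.count_cons, cnt]
  by_cases h : a.1 = i
  · simp [h]
  · simp [h]

lemma deg_eq {Z : 𝒱.Obj} (l : List (Fin f × (Z ⟶ X))) :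
    B.deg l = ∑ i, cnt l i * B.dg i := by
  induction l with
  | nil => simp [deg, cnt]
  | cons a l ih =>
    simp only [cnt_cons, add_mul, Finset.sum_add_distrib, ite_mul, one_mul, zero_mul,
      Finset.sum_ite_eq, Finset.mem_univ, if_true]
    rw [← ih, deg, List.map_cons, List.sum_cons, deg]
    ring

/-- The sum of the expressions `2 a - D i`. -/
lemma sum_wt {Z : 𝒱.Obj} (l : List (Fin f × (Z ⟶ X))) (σ : S) :
    2 * H.wt (B.ch l) σ - D * (B.deg l : ℕ) =
      ∑ i, (2 * H.wt (B.ps i) σ - D * B.dg i) * (cnt l i : ℤ) := by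
  induction l with
  | nil => simp [ch, H.wt_one, cnt, deg]
  | cons a l ih =>
    have h1 : H.wt (B.ch (a :: l)) σ = H.wt (B.ps a.1) σ + H.wt (B.ch l) σ := by
      rw [ch, List.map_cons, List.prod_cons]
      exact congrFun (H.mul _ (B.hodge _) _ (B.ch_mem l)) σ
    have h2 : ∀ i, (cnt (a :: l) i : ℤ) = cnt l i + if a.1 = i then 1 else 0 := by
      intro i
      rw [cnt_cons]
      push_cast
      rfl
    simp only [h2, mul_add, Finset.sum_add_distrib, mul_ite, mul_one, mul_zero,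
      Finset.sum_ite_eq, Finset.mem_univ, if_true]
    rw [← ih, h1, deg, List.map_cons, List.sum_cons, deg]
    push_cast
    ring

/-- The linear forms. -/
def forms : Set (Fin f → ℤ) := Set.range fun σ i => 2 * H.wt (B.ps i) σ - D * B.dg i

lemma forms_le : ∀ s ∈ B.forms, ∀ i, |s i| ≤ c := by
  rintro _ ⟨σ, rfl⟩ i
  exact B.bd i σ

/-- The solutions of even degree. -/
def M : Set (Fin f → ℕ) := {e | e ∈ sols B.forms ∧ Even (∑ i, e i * B.dg i)}

lemma M_sub : ∀ e ∈ B.M, ∀ m ∈ B.M, m ≤ e → e - m ∈ B.M := by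
  rintro e ⟨he, he2⟩ m ⟨hm, hm2⟩ hme
  refine ⟨sols_sub e he m hm hme, ?_⟩
  have h1 : ∑ i, e i * B.dg i = ∑ i, (e - m) i * B.dg i + ∑ i, m i * B.dg i := by
    rw [← Finset.sum_add_distrib]
    refine Finset.sum_congr rfl fun i _ => ?_
    rw [← add_mul, Pi.sub_apply, Nat.sub_add_cancel (hme i)]
  rw [h1, Nat.even_add] at he2
  exact he2.2 hm2

/-- Small elements of even degree. -/
lemma M_small {N : ℕ}
    (hn : ∀ e ∈ sols B.forms, e ≠ 0 → ∃ m ∈ sols B.forms, m ≠ 0 ∧ m ≤ e ∧ ∑ i, m i ≤ N) :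
    ∀ e ∈ B.M, e ≠ 0 → ∃ m ∈ B.M, m ≠ 0 ∧ m ≤ e ∧ ∑ i, m i ≤ 2 * N := by
  rintro e ⟨he, he2⟩ he0
  obtain ⟨m, hm, hm0, hme, hmN⟩ := hn e he he0
  by_cases hpar : Even (∑ i, m i * B.dg i)
  · exact ⟨m, ⟨hm, hpar⟩, hm0, hme, by omega⟩
  have h1 : ∑ i, e i * B.dg i = ∑ i, (e - m) i * B.dg i + ∑ i, m i * B.dg i := by
    rw [← Finset.sum_add_distrib]
    refine Finset.sum_congr rfl fun i _ => ?_
    rw [← add_mul, Pi.sub_apply, Nat.sub_add_cancel (hme i)]
  have h2 : ¬ Even (∑ i, (e - m) i * B.dg i) := by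
    intro h
    rw [h1, Nat.even_add] at he2
    exact hpar (he2.1 h)
  have h3 : e - m ≠ 0 := by
    intro h
    apply h2
    rw [h]
    simp
  obtain ⟨m', hm', hm0', hme', hmN'⟩ := hn _ (sols_sub e he m hm hme) h3
  have hle : m' ≤ e := fun i => (hme' i).trans (Nat.sub_le (e i) (m i))
  by_cases hpar' : Even (∑ i, m' i * B.dg i)
  · exact ⟨m', ⟨hm', hpar'⟩, hm0', hle, by omega⟩
  refine ⟨m + m', ⟨?_, ?_⟩, ?_, ?_, ?_⟩
  · intro s hs
    have h4 : ∀ i, s i * (((m + m') i : ℕ) : ℤ) = s i * (m i : ℤ) + s i * (m' i : ℤ) := by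
      intro i
      rw [Pi.add_apply]
      push_cast
      ring
    simp only [h4, Finset.sum_add_distrib]
    rw [hm s hs, hm' s hs, add_zero]
  · have h4 : ∑ i, (m + m') i * B.dg i = ∑ i, m i * B.dg i + ∑ i, m' i * B.dg i := by
      rw [← Finset.sum_add_distrib]
      exact Finset.sum_congr rfl fun i _ => by rw [Pi.add_apply, add_mul]
    rw [h4, Nat.even_add]
    exact ⟨fun h => absurd h hpar, fun h => absurd h hpar'⟩
  · intro h
    apply hm0
    funext i
    have := congrFun h i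
    rw [Pi.add_apply, Pi.zero_apply] at this
    rw [Pi.zero_apply]
    omega
  · intro i
    have h4 : m' i ≤ e i - m i := hme' i
    have h5 : m i ≤ e i := hme i
    change m i + m' i ≤ e i
    omega
  · rw [Finset.sum_congr rfl fun i _ => Pi.add_apply _ _ i, Finset.sum_add_distrib]
    omega

lemma mem_M {Z : 𝒱.Obj} (l : List (Fin f × (Z ⟶ X))) : cnt l ∈ B.M ↔
    (∀ σ, 2 * H.wt (B.ch l) σ = D * (B.deg l : ℕ)) ∧ Even (B.deg l) := by
  rw [B.deg_eq]
  refine and_congr ?_ Iff.rfl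
  rw [← B.deg_eq]
  constructor
  · intro h σ
    have h1 := h _ ⟨σ, rfl⟩
    rw [← B.sum_wt] at h1
    linarith
  · rintro h _ ⟨σ, rfl⟩
    rw [← B.sum_wt, h σ, sub_self]

/-- The products which are Tate classes. -/
lemma isTate (hΔ : Δ.FiniteIndex) {n : ℕ} {l : List (Fin f × (pw X n ⟶ X))}
    (hl : Proj l) (h : cnt l ∈ B.M) : ∃ j, G.IsTateClass n j (prd B.v l) := by
  rw [B.mem_M] at h
  obtain ⟨h, j, hj⟩ := h
  have h1 : ∀ σ, H.wt (B.ch l) σ = D * j := by
    intro σ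
    have h2 := h σ
    rw [hj] at h2
    push_cast at h2
    linarith
  obtain ⟨m, hm, h2⟩ := (H.finite_iff (B.ch_mem l) j).2 h1
  obtain ⟨Δ', hΔ', h3⟩ := (finite_order_iff (W := W) hΔ (B.ch l) ((χ.comp Δ.subtype) ^ j)).1
    ⟨m, hm, fun g => DFunLike.congr_fun h2 g⟩
  refine ⟨j, ?_, Δ ⊓ Δ', inferInstance, ?_⟩
  · rw [two_mul, ← hj]
    exact prd_mem B.mem l
  · rintro g ⟨hg1, hg2⟩
    have h4 := B.eig_prd hl ⟨g, hg1⟩
    rw [h3 ⟨g, hg1⟩ hg2] at h4
    exact h4

/-- The support of a Tate class. -/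
lemma of_tate (hΔ : Δ.FiniteIndex) {n r : ℕ} (e : Module.Basis (Fin r) W.K (W.H (pw X n)))
    {l : Fin r → List (Fin f × (pw X n ⟶ X))} (he : ∀ i, Proj (l i) ∧ e i = prd B.v (l i))
    {j : ℕ} {x : W.H (pw X n)} (hx : G.IsTateClass n j x) {i : Fin r} (hi : e.repr x i ≠ 0) :
    cnt (l i) ∈ B.M := by
  classical
  obtain ⟨hx1, Δ', hΔ', hx2⟩ := hx
  have hdeg : B.deg (l i) = 2 * j := by
    by_contra hne
    apply hi
    have h1 : x = ∑ y, if B.deg (l y) = 2 * j then e.repr x y • e y else 0 := by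
      conv_lhs => rw [← proj_same (W.isInternal (pw X n)) hx1, ← e.sum_repr x]
      rw [map_sum]
      refine Finset.sum_congr rfl fun y _ => ?_
      rw [map_smul]
      have h2 : e y ∈ W.gr (pw X n) (B.deg (l y)) := by
        rw [(he y).2]; exact prd_mem B.mem _
      by_cases hy : B.deg (l y) = 2 * j
      · rw [if_pos hy]
        rw [hy] at h2
        rw [proj_same _ h2]
      · rw [if_neg hy, proj_ne _ h2 hy, smul_zero]
    have h3 := congrArg (fun z => e.repr z i) h1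
    simp only [map_sum, Finsupp.finsetSum_apply] at h3
    rw [h3, Finset.sum_eq_zero]
    intro y _
    by_cases hy : B.deg (l y) = 2 * j
    · rw [if_pos hy, map_smul, Finsupp.smul_apply, e.repr_self, Finsupp.single_eq_of_ne,
        smul_zero]
      rintro rfl
      exact hne hy
    · rw [if_neg hy, map_zero, Finsupp.zero_apply]
  rw [B.mem_M]
  have h0 : ∃ m, 0 < m ∧ ∀ g : Δ, (B.ch (l i)) g ^ m = (χ g ^ j) ^ m := by
    refine (finite_order_iff (W := W) hΔ (B.ch (l i)) ((χ.comp Δ.subtype) ^ j)).2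
      ⟨Δ', hΔ', fun g hg => ?_⟩
    have h1 := hx2 g hg
    have h2 : e.repr (G.act n g x) i = (B.ch (l i) g : W.K) * e.repr x i := by
      conv_lhs => rw [← e.sum_repr x]
      rw [map_sum, map_sum, Finsupp.finsetSum_apply, Finset.sum_eq_single i]
      · rw [map_smul, (he i).2, B.eig_prd (he i).1, ← (he i).2, map_smul, map_smul,
          Finsupp.smul_apply, Finsupp.smul_apply, e.repr_self, Finsupp.single_eq_same,
          smul_eq_mul, smul_eq_mul, mul_one, mul_comm]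
      · intro y _ hy
        rw [map_smul, (he y).2, B.eig_prd (he y).1, ← (he y).2, map_smul, map_smul,
          Finsupp.smul_apply, Finsupp.smul_apply, e.repr_self,
          Finsupp.single_eq_of_ne (Ne.symm hy), smul_zero, smul_zero]
      · intro h
        exact absurd (Finset.mem_univ _) h
    rw [h1, map_smul, Finsupp.smul_apply, smul_eq_mul] at h2
    have h3 := mul_right_cancel₀ hi h2
    apply Units.ext
    rw [← h3]
    simp
  obtain ⟨m, hm, h0⟩ := h0
  have h1 := (H.finite_iff (B.ch_mem (l i)) j).1 ⟨m, hm, MonoidHom.ext h0⟩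
  refine ⟨fun σ => ?_, by rw [hdeg]; exact ⟨j, by ring⟩⟩
  rw [h1 σ, hdeg]
  push_cast
  ring

include B in
/-- Tate classes on all powers, if the solutions have small generators. -/
theorem closed (hΔ : Δ.FiniteIndex) {N : ℕ}
    (hn : ∀ e ∈ B.M, e ≠ 0 → ∃ m ∈ B.M, m ≠ 0 ∧ m ≤ e ∧ ∑ i, m i ≤ N)
    {C : ∀ Z : 𝒱.Obj, Submodule W.K (W.H Z)} (hone : ∀ Z, (1 : W.H Z) ∈ C Z)
    (hmul : ∀ Z, ∀ x ∈ C Z, ∀ y ∈ C Z, x * y ∈ C Z)
    (hmap : ∀ (Y Z : 𝒱.Obj) (g : Y ⟶ Z), ∀ x ∈ C Z, W.map g x ∈ C Y)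
    (h : ∀ m < N, ∀ j x, G.IsTateClass m j x → x ∈ C (pw X m)) (n j : ℕ) (x : W.H (pw X n))
    (hx : G.IsTateClass n j x) : x ∈ C (pw X n) := by
  obtain ⟨r, e, l, he⟩ := exists_basis B.gen n
  rw [← e.sum_repr x]
  refine Submodule.sum_mem _ fun i _ => ?_
  by_cases hi : e.repr x i = 0
  · rw [hi, zero_smul]
    exact Submodule.zero_mem _
  refine Submodule.smul_mem _ _ ?_
  rw [(he i).2]
  refine prd_closed (C := fun Z => (C Z : Set (W.H Z))) B.mem hone
    (fun Z x hx => Submodule.neg_mem (C Z) hx) hmul hmap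
    (M := B.M) (N := N) B.M_sub hn ?_ (l i)
    (B.of_tate hΔ e he hx hi)
  intro m hm l' hl' hM
  obtain ⟨j', hj'⟩ := B.isTate hΔ hl' hM
  exact h m hm j' _ hj'

end Gens

/-- The generators. -/
lemma exists_gens {g : ℕ} (h : IsAbelian (A := W.H X) H (W.gr X) (G.act 0) g) :
    ∃ B : Gens G Δ H (g + g) D, ∃ bar : Fin (g + g) → Fin (g + g), (∀ i, bar (bar i) = i) ∧
      (∀ i, bar i ≠ i) ∧ (∀ s ∈ B.forms, ∀ i, s (bar i) = -s i) ∧ ∀ i, B.dg i = 1 := by
  obtain ⟨v, v', hgen, hv⟩ := h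
  choose h1 h1' ψ ψ' h2 h2' h3 h4 h5 using hv
  have h4' : ∀ i, ψ' i ∈ H.L := by
    intro i
    have h6 : ψ' i = (ψ i)⁻¹ * χ.comp Δ.subtype := by
      rw [← h3 i]
      refine MonoidHom.ext fun x => ?_
      rw [MonoidHom.mul_apply, MonoidHom.mul_apply, MonoidHom.inv_apply, inv_mul_cancel_left]
    rw [h6]
    exact H.L.mul_mem (H.L.inv_mem (h4 i)) H.mem
  have h6 : ∀ i σ, H.wt (ψ' i) σ = D - H.wt (ψ i) σ := by
    intro i σ
    have h7 := H.mul _ (h4 i) _ (h4' i)
    rw [h3] at h7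
    have h8 := congrFun h7 σ
    rw [H.one σ, Pi.add_apply] at h8
    omega
  let e : Fin g ⊕ Fin g ≃ Fin (g + g) := finSumFinEquiv
  let B : Gens G Δ H (g + g) D :=
    { v := fun i => Sum.elim v v' (e.symm i)
      dg := fun _ => 1
      ps := fun i => Sum.elim ψ ψ' (e.symm i)
      gen := by
        rw [← hgen]
        congr 1
        ext x
        constructor
        · rintro ⟨i, rfl⟩
          obtain ⟨a, rfl⟩ := e.surjective i
          change Sum.elim v v' (e.symm (e a)) ∈ _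
          rw [e.symm_apply_apply]
          rcases a with a | a
          · exact Or.inl ⟨a, rfl⟩
          · exact Or.inr ⟨a, rfl⟩
        · rintro (⟨a, rfl⟩ | ⟨a, rfl⟩)
          · exact ⟨e (Sum.inl a), by
              change Sum.elim v v' (e.symm (e (Sum.inl a))) = _
              rw [e.symm_apply_apply]; rfl⟩
          · exact ⟨e (Sum.inr a), by
              change Sum.elim v v' (e.symm (e (Sum.inr a))) = _
              rw [e.symm_apply_apply]; rfl⟩
      mem := by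
        intro i
        rcases e.symm i with a | a
        · exact h1 a
        · exact h1' a
      eig := by
        intro i
        rcases e.symm i with a | a
        · exact h2 a
        · exact h2' a
      hodge := by
        intro i
        rcases e.symm i with a | a
        · exact h4 a
        · exact h4' a
      bd := by
        intro i σ
        rcases e.symm i with a | a
        · have := h5 a σ
          rw [Sum.elim_inl, abs_le]
          push_cast
          constructor <;> linarith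
        · have := h5 a σ
          rw [Sum.elim_inr, h6, abs_le]
          push_cast
          constructor <;> linarith }
  refine ⟨B, fun i => e (e.symm i).swap, fun i => ?_, fun i hi => ?_, ?_, fun i => rfl⟩
  · change e (e.symm (e (e.symm i).swap)).swap = i
    rw [e.symm_apply_apply, Sum.swap_swap, e.apply_symm_apply]
  · change e (e.symm i).swap = i at hi
    have h7 := congrArg e.symm hi
    rw [e.symm_apply_apply] at h7
    rcases h8 : e.symm i with a | a <;> rw [h8] at h7 <;> simp at h7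
  · rintro _ ⟨σ, rfl⟩ i
    change 2 * H.wt (Sum.elim ψ ψ' (e.symm (e (e.symm i).swap))) σ - D * ((1 : ℕ) : ℤ) =
      -(2 * H.wt (Sum.elim ψ ψ' (e.symm i)) σ - D * ((1 : ℕ) : ℤ))
    rw [e.symm_apply_apply]
    rcases e.symm i with a | a
    · rw [Sum.swap_inl, Sum.elim_inr, Sum.elim_inl, h6]
      push_cast
      ring
    · rw [Sum.swap_inr, Sum.elim_inr, Sum.elim_inl, h6]
      push_cast
      ring

lemma tateAlg_map {J N : Set ℕ} (Y Z : 𝒱.Obj) (g : Y ⟶ Z) (x : W.H Z)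
    (hx : x ∈ tateAlg G J N Z) : W.map g x ∈ tateAlg G J N Y := by
  have h : tateAlg G J N Z ≤ (tateAlg G J N Y).comap (W.map g) := by
    refine Algebra.adjoin_le ?_
    rintro _ ⟨m, hm, f, j, hj, y, hy, rfl⟩
    refine Algebra.subset_adjoin ⟨m, hm, g ≫ f, j, hj, y, hy, ?_⟩
    rw [W.map_comp]
    rfl
  exact h hx

/-- **Tate classes on all powers of an abelian variety over a finite field.** -/
theorem main (hΔ : Δ.FiniteIndex) {g : ℕ}
    (h : IsAbelian (A := W.H X) H (W.gr X) (G.act 0) g) :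
    (∀ n j x, G.IsTateClass n j x →
      x ∈ tateAlg G Set.univ (Set.Iio (abelianBound g D)) (pw X n)) ∧
    ((∀ m < abelianBound g D, G.TateFor m) → ∀ n, G.TateFor n) ∧
    ((∀ m < abelianBound g D, ∀ j x, G.IsTateClass m j x →
      x ∈ tateAlg G {1} Set.univ (pw X m)) →
      ∀ n j x, G.IsTateClass n j x → x ∈ tateAlg G {1} Set.univ (pw X n)) := by
  obtain ⟨B, bar, h1, h2, h3, h4⟩ := exists_gens h
  have h5 := B.M_small (sols_small_paired (two_mul g).symm B.forms_le h1 h2 h3)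
  refine ⟨?_, fun hT n j x => ?_, fun hT => ?_⟩
  · refine B.closed hΔ h5
      (C := fun Z => Subalgebra.toSubmodule (tateAlg G Set.univ (Set.Iio (abelianBound g D)) Z))
      (fun Z => Subalgebra.one_mem _) (fun Z x hx y hy => Subalgebra.mul_mem _ hx hy)
      tateAlg_map ?_
    intro m hm j x hx
    exact Algebra.subset_adjoin ⟨m, hm, 𝟙 _, j, trivial, x, hx, by rw [W.map_id]⟩
  · exact B.closed hΔ h5 (C := fun Z => algSpan W Z) (fun Z => one_mem_algSpan)
      (fun Z x hx y hy => algSpan_mul hx hy) (fun Y Z g x hx => algSpan_map g hx) hT n j x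
  · exact B.closed hΔ h5 (C := fun Z => Subalgebra.toSubmodule (tateAlg G {1} Set.univ Z))
      (fun Z => Subalgebra.one_mem _) (fun Z x hx y hy => Subalgebra.mul_mem _ hx hy)
      tateAlg_map hT

end Pool.Agent.X297.BF
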